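import Pool.Agent.N54.ML.Gen
import Pool.Agent.N365.SM.E

/-!
# The Shimura maps of the members of families with several parameters along well distributed sequences
-/

set_option autoImplicit false

namespace Pool.Agent.N628.BS

open Finset Filter MvPolynomial
open Pool.Agent.N141.TS (MeanPoles ZP eval_red ncard_mono)
open Pool.Agent.N54.ML (Poly val_growth)
open Pool.Agent.N54.ME (WS)
open Pool.Agent.N365.SM (Sh shimura)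
open Pool.Agent.N666.TM Pool.Agent.Y722.HS

/-- one large pole is enough -/
theorem one {θ : ℝ} (hθ : 0 < θ) (m : ℕ) : ∃ N₀ : ℕ, ∀ N : ℕ, N₀ ≤ N → 1 ≤ N → ∀ x y : ℤ, y ≠ 0 →
    (∃ p : ℕ, p.Prime ∧ (N : ℝ) ^ θ ≤ p ∧ (p : ℤ) ∣ y ∧ ¬ (p : ℤ) ∣ x) →
    |(x : ℝ)| ≤ (N : ℝ) ^ (m + 1) → |(y : ℝ)| ≤ (N : ℝ) ^ (m + 1) →
    Sh (11 / 2 + (m + 1) / (6 * θ)) ((x : ℚ) / y) := by
  obtain ⟨B₀, hB₀⟩ := shimura m (ε := 8 * θ) (by positivity)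
  refine ⟨B₀, fun N hN hN1 x y hy hp hx hy' => ?_⟩
  obtain ⟨p, hp, hpN, hpy, hpx⟩ := hp
  have e1 : 8 * θ / 8 = θ := by ring
  have e2 : 11 / 2 + 4 * ((m : ℝ) + 1) / (3 * (8 * θ)) = 11 / 2 + (m + 1) / (6 * θ) := by
    field_simp
    ring
  have h := hB₀ N hN hN1 x y ⟨hy, {p}, ?_, ?_⟩ hx hy'
  · rw [e2] at h
    exact h
  · intro q hq
    rw [mem_singleton] at hq
    subst hq
    exact ⟨hp, hpy, hpx⟩
  · rw [prod_singleton, e1]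
    exact hpN

/-- **Well distributed sequences.** -/
theorem core {r : ℕ} {A D : MvPolynomial (Fin r) ℤ} (hD : D ≠ 0) (hM : MeanPoles A D)
    {z : ℕ → Fin r → ℤ} {κ₁ : ℝ} (hκ₁ : 0 < κ₁) (h : WS z κ₁) (hz : Poly z)
    (ε : ℝ) (hε : 0 < ε) : ∃ (κ : ℝ) (N₀ : ℕ), ∀ N : ℕ, N₀ ≤ N →
      ({n : ℕ | n ∈ Ioc N (2 * N) ∧
        ¬ (eval (z n) D ≠ 0 ∧ Sh κ ((eval (z n) A : ℤ) / (eval (z n) D : ℤ)))}.ncard : ℝ) ≤ ε * N ∧
      ({n : ℕ | n ∈ (Ioc N (2 * N)).filter Nat.Prime ∧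
        ¬ (eval (z n) D ≠ 0 ∧ Sh κ ((eval (z n) A : ℤ) / (eval (z n) D : ℤ)))}.ncard : ℝ) ≤
        ε * ((Ioc N (2 * N)).filter Nat.Prime).card := by
  classical
  obtain ⟨θ, hθ, N₁, hN₁, h1⟩ := Pool.Agent.N54.ML.thin0 hD (Ω := ZP A D) hM hκ₁ h ε hε
  obtain ⟨CA, mA, nA, hCA, hA⟩ := val_growth A hz
  obtain ⟨CD, mD, nD, hCD, hDg⟩ := val_growth D hz
  obtain ⟨C, hC⟩ : ∃ C : ℝ, C = max CA CD := ⟨_, rfl⟩
  obtain ⟨m, hm⟩ : ∃ m : ℕ, m = max mA mD := ⟨_, rfl⟩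
  have hCAC : CA ≤ C := hC ▸ le_max_left _ _
  have hCDC : CD ≤ C := hC ▸ le_max_right _ _
  have hmA : mA ≤ m := hm ▸ le_max_left _ _
  have hmD : mD ≤ m := hm ▸ le_max_right _ _
  obtain ⟨N₂, hN₂⟩ := one hθ m
  have key : ∀ N : ℕ, N₁ + N₂ + nA + nD + ⌈C⌉₊ ≤ N → ∀ n ∈ Ioc N (2 * N),
      ¬ (eval (z n) D ≠ 0 ∧ Sh (11 / 2 + (m + 1) / (6 * θ)) ((eval (z n) A : ℤ) / (eval (z n) D : ℤ))) →
      ¬ (eval (z n) D ≠ 0 ∧ ∃ p : ℕ, p.Prime ∧ (N : ℝ) ^ θ ≤ p ∧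
        red p (z n) ∈ ZP A D p) := by
    intro N hN n hn hbad
    rintro ⟨hc2, p, hp3, hpN, hpZ⟩
    have hN1 : 1 ≤ N := by omega
    have hN1R : (1 : ℝ) ≤ N := by exact_mod_cast hN1
    have hN0 : (0 : ℝ) < N := by linarith
    have hCN : C ≤ N := (Nat.le_ceil C).trans (by exact_mod_cast (by omega : ⌈C⌉₊ ≤ N))
    have hpZ' : aeval (fun i => (z n i : ZMod p)) D = 0 ∧
      aeval (fun i => (z n i : ZMod p)) A ≠ 0 := hpZ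
    rw [eval_red, eval_red, ZMod.intCast_zmod_eq_zero_iff_dvd, Ne,
      ZMod.intCast_zmod_eq_zero_iff_dvd] at hpZ'
    apply hbad
    have hC0 : 0 ≤ C := by linarith
    have hgrow : ∀ {c : ℝ} {k : ℕ}, c ≤ C → k ≤ m → c * (N : ℝ) ^ k ≤ (N : ℝ) ^ (m + 1) := by
      intro c k hc hk
      calc c * (N : ℝ) ^ k ≤ C * (N : ℝ) ^ m :=
            mul_le_mul hc (pow_le_pow_right₀ hN1R hk) (by positivity) hC0
        _ ≤ N * (N : ℝ) ^ m := mul_le_mul_of_nonneg_right hCN (by positivity)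
        _ = (N : ℝ) ^ (m + 1) := by ring
    exact ⟨hc2, hN₂ N (by omega) hN1 _ _ hc2 ⟨p, hp3, hpN, hpZ'.1, hpZ'.2⟩
      ((hA N hN1 (by omega) n hn).trans (hgrow hCAC hmA))
      ((hDg N hN1 (by omega) n hn).trans (hgrow hCDC hmD))⟩
  refine ⟨11 / 2 + (m + 1) / (6 * θ), N₁ + N₂ + nA + nD + ⌈C⌉₊, fun N hN => ?_⟩
  obtain ⟨k1, k2⟩ := h1 N (by omega)
  rw [Nat.card_Ioc, show 2 * N - N = N by omega] at k1
  exact ⟨(ncard_mono fun n hn => key N hN n hn).trans k1,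
    (ncard_mono fun n hn => key N hN n (Finset.mem_of_mem_filter n hn)).trans k2⟩

/-- the integer parts of the values of generalised polynomials are well distributed -/
theorem fl_ws {r : ℕ} (hr : 0 < r) {F : Fin r → Finset ℝ} {a : Fin r → ℝ → ℝ} {c : Fin r → ℝ}
    (h : ∀ i, c i ∈ F i ∧ (∀ t ∈ F i, t ≤ c i) ∧ 0 < c i ∧ (∀ m : ℕ, c i ≠ m) ∧ 0 < a i (c i))
    (hc : Function.Injective c) : ∃ κ : ℝ, 0 < κ ∧ WS (fl F a) κ := by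
  have : Nonempty (Fin r) := ⟨⟨0, hr⟩⟩
  obtain ⟨⟨κ₁, hκ₁, n₁, hw₁⟩, ⟨κ₂, hκ₂, n₂, hw₂⟩⟩ := fl_well h hc
  refine ⟨min κ₁ κ₂, lt_min hκ₁ hκ₂, max (max n₁ n₂) 1, fun N hN H hH => ?_⟩
  have h1 : n₁ ≤ N := (le_max_left _ _).trans ((le_max_left _ _).trans hN)
  have h2 : n₂ ≤ N := (le_max_right _ _).trans ((le_max_left _ _).trans hN)
  have h3 : (1 : ℝ) ≤ N := by exact_mod_cast (le_max_right _ _).trans hN
  exact ⟨hw₁ N h1 H (hH.trans (Real.rpow_le_rpow_of_exponent_le h3 (min_le_left _ _))),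
    hw₂ N h2 H (hH.trans (Real.rpow_le_rpow_of_exponent_le h3 (min_le_right _ _)))⟩

theorem fl_poly {r : ℕ} (F : Fin r → Finset ℝ) (a : Fin r → ℝ → ℝ) : Poly (fl F a) := by
  obtain ⟨C, m, -, h⟩ := Pool.Agent.N141.TS.fl_growth F a
  exact ⟨C, m, eventually_atTop.2 ⟨1, fun n hn i => h n hn i⟩⟩

end Pool.Agent.N628.BS
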